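import Mathlib
import Pool.Agent.Helper92_KP.Final

/-!
# The union of the optimal vertex covers in the random König graph process

For every starting time `a n` with `a n / n → ∞` (in particular `a n = c * n * log n` for every
constant `c > 0`, see `result_log`) the union `D_m` of all optimal vertex covers of `G_m` has
`n / 2 * (1 + o(1))` vertices simultaneously for all `m ≥ a n`, with high probability.
-/

open Filter Topology

namespace Pool.Agent.Results.MP_de3ac5_pr.AllTimes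

open Pool.Agent.KonigProcess

theorem result (a : ℕ → ℝ) (ha : Tendsto (fun n : ℕ => a n / (n : ℝ)) atTop atTop) :
    ∃ ε : ℕ → ℝ, Tendsto ε atTop (𝓝 0) ∧
      Tendsto (fun n : ℕ => prob n (fun σ => ∀ m : ℕ, a n ≤ (m : ℝ) → m ≤ n.choose 2 →
        |((D σ m).card : ℝ) - (n : ℝ) / 2| ≤ ε n * ((n : ℝ) / 2))) atTop (𝓝 1) ∧
      ∀ᶠ n : ℕ in atTop, 1 - Real.exp (-(n : ℝ)) ≤
        prob n (fun σ => ∀ m : ℕ, a n ≤ (m : ℝ) → m ≤ n.choose 2 →
          |((D σ m).card : ℝ) - (n : ℝ) / 2| ≤ ε n * ((n : ℝ) / 2)) :=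
  all_times a ha

/-- The case `a n = c * n * log n` for an arbitrary constant `c > 0`. -/
theorem result_log (c : ℝ) (hc : 0 < c) :
    ∃ ε : ℕ → ℝ, Tendsto ε atTop (𝓝 0) ∧
      Tendsto (fun n : ℕ => prob n (fun σ => ∀ m : ℕ,
        c * (n : ℝ) * Real.log n ≤ (m : ℝ) → m ≤ n.choose 2 →
        |((D σ m).card : ℝ) - (n : ℝ) / 2| ≤ ε n * ((n : ℝ) / 2))) atTop (𝓝 1) := by
  have h : Tendsto (fun n : ℕ => c * (n : ℝ) * Real.log n / (n : ℝ)) atTop atTop := by
    have h1 : Tendsto (fun n : ℕ => c * Real.log n) atTop atTop :=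
      (Real.tendsto_log_atTop.comp tendsto_natCast_atTop_atTop).const_mul_atTop hc
    refine h1.congr' ?_
    filter_upwards [eventually_ge_atTop 1] with n hn
    have : (n : ℝ) ≠ 0 := by positivity
    field_simp
  obtain ⟨ε, h1, h2, -⟩ := result _ h
  exact ⟨ε, h1, h2⟩

end Pool.Agent.Results.MP_de3ac5_pr.AllTimes
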